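import Pool.Agent.helper36.HK.Spec

/-! Row LIP of block HK (after Pool/Agent/helper17/TG/SW1.lean). -/

set_option autoImplicit false

namespace Pool.Agent.HK
open Finset Pool.Agent.FI

private theorem LIP_one_le {M : ℝ} (hM : 1 ≤ M) (s : ℂ) : 1 ≤ lf M s := by
  unfold lf
  have h1 : 0 ≤ Real.log M := Real.log_nonneg hM
  have h2 : 0 ≤ Real.log (2 + |s.im|) := Real.log_nonneg (by linarith [abs_nonneg s.im])
  linarith

private theorem LIP_summable {C₀ : ℝ} {a : ℕ → ℂ}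
    (h : ∀ y : ℕ, ∑ n ∈ Ioc 0 y, ‖a n‖ ≤ C₀ * y) {s : ℂ} (hs : 1 < s.re) :
    LSeriesSummable a s := by
  refine LSeriesSummable_of_sum_norm_bigO (r := 1) ?_ zero_le_one hs
  refine Asymptotics.IsBigO.of_bound C₀ (Filter.Eventually.of_forall fun n => ?_)
  have h1 : ∑ k ∈ Icc 1 n, ‖a k‖ ≤ C₀ * n := h n
  have h2 : 0 ≤ ∑ k ∈ Icc 1 n, ‖a k‖ := Finset.sum_nonneg fun _ _ => norm_nonneg _
  rw [Real.norm_of_nonneg h2, Real.rpow_one, Real.norm_of_nonneg (Nat.cast_nonneg n)]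
  exact h1

theorem LIP (hABL : ABL_stmt) : LIP_stmt := by
  intro C₀
  obtain ⟨C, hC, h⟩ := hABL C₀ 1
  refine ⟨C, hC, ?_⟩
  intro M hM a hN s t hs1 hs2 ht1 ht2 hts
  set D : Set ℂ := {z : ℂ | 1 < z.re ∧ z.re ≤ 2 ∧ |z.im| ≤ |s.im|} with hD
  have hconv : Convex ℝ D := by
    have e : D = ({z : ℂ | 1 < z.re} ∩ {z : ℂ | z.re ≤ 2}) ∩
        ({z : ℂ | -|s.im| ≤ z.im} ∩ {z : ℂ | z.im ≤ |s.im|}) := by
      ext z
      simp only [hD, Set.mem_ofPred_eq, Set.mem_inter_iff, abs_le]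
      tauto
    rw [e]
    exact ((convex_halfSpace_re_gt 1).inter (convex_halfSpace_re_le 2)).inter
      ((convex_halfSpace_im_ge (-|s.im|)).inter (convex_halfSpace_im_le |s.im|))
  have hf0 : (fun n : ℕ => a n * (Real.log n : ℂ) ^ 0) = a := by
    funext n
    rw [pow_zero, mul_one]
  have hder : ∀ z ∈ D, HasDerivWithinAt (DF a 0) (-DF a 1 z) D z := by
    intro z hz
    have h1 : LSeries.abscissaOfAbsConv (fun n : ℕ => a n * (Real.log n : ℂ) ^ 0) < z.re := by
      rw [hf0]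
      refine lt_of_le_of_lt
        (LSeries.abscissaOfAbsConv_le_of_forall_lt_LSeriesSummable (x := 1) fun y hy => ?_) ?_
      · exact LIP_summable hN.1 (by simpa using hy)
      · exact_mod_cast hz.1
    have h2 := LSeries_hasDerivAt h1
    have h3 : LSeries (LSeries.logMul fun n : ℕ => a n * (Real.log n : ℂ) ^ 0) z = DF a 1 z := by
      unfold DF
      congr 1
      funext n
      simp only [LSeries.logMul, pow_zero, mul_one, pow_one, ← Complex.natCast_log]
      ring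
    rw [h3] at h2
    exact h2.hasDerivWithinAt
  have hbd : ∀ z ∈ D, ‖-DF a 1 z‖ ≤ C * lf M s ^ 2 := by
    intro z hz
    rw [norm_neg]
    refine (h M hM a hN z hz.1 hz.2.1).trans ?_
    have h4 : lf M z ≤ lf M s := by
      unfold lf
      have := Real.log_le_log (by linarith [abs_nonneg z.im] : 0 < 2 + |z.im|)
        (by linarith [hz.2.2] : 2 + |z.im| ≤ 2 + |s.im|)
      linarith
    have h5 : 0 ≤ lf M z := by linarith [LIP_one_le hM z]
    have : lf M z ^ (1 + 1) ≤ lf M s ^ 2 := by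
      norm_num
      gcongr
    exact mul_le_mul_of_nonneg_left this hC.le
  exact hconv.norm_image_sub_le_of_norm_hasDerivWithin_le hder hbd ⟨ht1, ht2, hts⟩
    ⟨hs1, hs2, le_rfl⟩

end Pool.Agent.HK
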