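import Pool.Agent.helper36.HK.Spec

/-! Row POL of block HK. -/

set_option autoImplicit false

namespace Pool.Agent.HK
open Finset Pool.Agent.FI

theorem POL : POL_stmt := by
  intro C₀ a h x hx hx1
  have hC : 0 ≤ C₀ := by
    have h1 := h 1
    have h2 : 0 ≤ ∑ n ∈ Ioc 0 1, ‖a n‖ := Finset.sum_nonneg fun _ _ => norm_nonneg _
    rw [Nat.cast_one, mul_one] at h1
    exact h2.trans h1
  set s : ℂ := 1 + (x : ℂ) with hs
  have hre : s.re = 1 + x := by simp [hs]
  have hO : (fun n : ℕ => ∑ k ∈ Icc 1 n, ‖a k‖) =O[Filter.atTop] fun n : ℕ => (n : ℝ) ^ (1 : ℝ) := by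
    refine Asymptotics.IsBigO.of_bound C₀ (Filter.Eventually.of_forall fun n => ?_)
    have h1 : ∑ k ∈ Icc 1 n, ‖a k‖ ≤ C₀ * n := h n
    have h2 : 0 ≤ ∑ k ∈ Icc 1 n, ‖a k‖ := Finset.sum_nonneg fun _ _ => norm_nonneg _
    rw [Real.norm_of_nonneg h2, Real.rpow_one, Real.norm_of_nonneg (Nat.cast_nonneg n)]
    exact h1
  have hf0 : DF a 0 s = LSeries a s := by
    unfold DF
    congr 1
    funext n
    rw [pow_zero, mul_one]
  rw [hf0, LSeries_eq_mul_integral' a zero_le_one (by rw [hre]; linarith) hO, norm_mul]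
  have hsn : ‖s‖ ≤ 2 := by
    have h1 : s = ((1 + x : ℝ) : ℂ) := by simp [hs]
    rw [h1, Complex.norm_real, Real.norm_of_nonneg (by linarith)]
    linarith
  have hint : ∫ t in Set.Ioi (1 : ℝ), C₀ * t ^ (-(1 + x)) = C₀ / x := by
    rw [MeasureTheory.integral_const_mul, integral_Ioi_rpow_of_lt (by linarith) zero_lt_one,
      Real.one_rpow]
    have e : -(1 + x) + 1 = -x := by ring
    rw [e]
    field_simp
  have hI : ‖∫ t in Set.Ioi (1 : ℝ), (∑ k ∈ Icc 1 ⌊t⌋₊, a k) * (t : ℂ) ^ (-(s + 1))‖ ≤ C₀ / x := by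
    rw [← hint]
    refine MeasureTheory.norm_integral_le_of_norm_le ?_ ?_
    · exact (integrableOn_Ioi_rpow_of_lt (by linarith) zero_lt_one).const_mul C₀
    · refine (MeasureTheory.ae_restrict_iff' measurableSet_Ioi).2 (Filter.Eventually.of_forall ?_)
      intro t ht
      have ht1 : 1 < t := ht
      have ht0 : 0 < t := by linarith
      rw [norm_mul, Complex.norm_cpow_eq_rpow_re_of_pos ht0]
      have e1 : (-(s + 1)).re = -(2 + x) := by
        rw [Complex.neg_re, Complex.add_re, hre, Complex.one_re]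
        ring
      have h1 : ‖∑ k ∈ Icc 1 ⌊t⌋₊, a k‖ ≤ C₀ * t := by
        refine (norm_sum_le _ _).trans ((h ⌊t⌋₊).trans ?_)
        exact mul_le_mul_of_nonneg_left (Nat.floor_le ht0.le) hC
      rw [e1]
      calc ‖∑ k ∈ Icc 1 ⌊t⌋₊, a k‖ * t ^ (-(2 + x)) ≤ C₀ * t * t ^ (-(2 + x)) :=
            mul_le_mul_of_nonneg_right h1 (Real.rpow_nonneg ht0.le _)
        _ = C₀ * t ^ (-(1 + x)) := by
            rw [mul_assoc]
            congr 1
            have e2 : -(1 + x) = 1 + -(2 + x) := by ring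
            rw [e2, Real.rpow_add ht0, Real.rpow_one]
  calc ‖s‖ * ‖∫ t in Set.Ioi (1 : ℝ), (∑ k ∈ Icc 1 ⌊t⌋₊, a k) * (t : ℂ) ^ (-(s + 1))‖
      ≤ 2 * (C₀ / x) := mul_le_mul hsn hI (norm_nonneg _) (by norm_num)
    _ = 2 * C₀ / x := by ring

end Pool.Agent.HK
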